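import Mathlib
import Pool.Agent.H710R2.DP.Defs
import Pool.Agent.H711R2.KG.Props
import Pool.Agent.H710R2.DP.FTasks

open scoped ComplexOrder InnerProductSpace ComplexConjugate
open Finset

noncomputable section

namespace H710R2.DP

open H759R2.Kad

namespace F1

variable {B : Type} [CStarAlgebra B]

/-- The average over a family of unitaries. -/
def av {N : ℕ} (g : Fin (N + 1) → unitary B) (x : B) : B :=
  ((N + 1 : ℝ))⁻¹ • ∑ k, (g k : B) * x * star (g k : B)

theorem av_eq {N : ℕ} (g : Fin (N + 1) → unitary B) (x : B) :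
    ((N + 1 : ℂ))⁻¹ • ∑ k, (g k : B) * x * star (g k : B) = av g x := by
  unfold av
  rw [← Complex.coe_smul]
  push_cast
  rfl

theorem algC (c : ℝ) : algebraMap ℂ B (c : ℂ) = algebraMap ℝ B c :=
  (IsScalarTower.algebraMap_apply ℝ ℂ B c).symm

theorem av_alg {N : ℕ} (g : Fin (N + 1) → unitary B) (c : ℝ) :
    av g (algebraMap ℝ B c) = algebraMap ℝ B c := by
  unfold av
  have h : ∀ k, (g k : B) * algebraMap ℝ B c * star (g k : B) = algebraMap ℝ B c := by
    intro k
    rw [← Algebra.commutes, mul_assoc, Unitary.mul_star_self_of_mem (g k).2, mul_one]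
  rw [Finset.sum_congr rfl fun k _ => h k, Finset.sum_const, Finset.card_univ, Fintype.card_fin,
    ← Nat.cast_smul_eq_nsmul ℝ, smul_smul]
  push_cast
  rw [inv_mul_cancel₀ (by positivity), one_smul]

theorem av_add {N : ℕ} (g : Fin (N + 1) → unitary B) (x y : B) :
    av g (x + y) = av g x + av g y := by
  unfold av
  rw [← smul_add, ← Finset.sum_add_distrib]
  congr 1
  refine Finset.sum_congr rfl fun k _ => ?_
  noncomm_ring

variable [PartialOrder B] [StarOrderedRing B]

theorem av_nonneg {N : ℕ} (g : Fin (N + 1) → unitary B) {x : B} (hx : 0 ≤ x) : 0 ≤ av g x :=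
  smul_nonneg (by positivity) (Finset.sum_nonneg fun k _ => star_right_conjugate_nonneg hx _)

/-- A scalar close to a self-adjoint element. -/
theorem close {x : B} (hx : IsSelfAdjoint x) {c η : ℝ} (h : ‖x - algebraMap ℝ B c‖ ≤ η) :
    x ≤ algebraMap ℝ B (c + η) ∧ algebraMap ℝ B (c - η) ≤ x := by
  have hs : IsSelfAdjoint (x - algebraMap ℝ B c) := hx.sub (IsSelfAdjoint.algebraMap B (by simp [IsSelfAdjoint]))
  have h1 := hs.le_algebraMap_norm_self
  have h2 := hs.neg_algebraMap_norm_le_self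
  have h3 : algebraMap ℝ B ‖x - algebraMap ℝ B c‖ ≤ algebraMap ℝ B η :=
    algebraMap_mono B h
  constructor
  · rw [map_add]
    have := h1.trans h3
    rw [sub_le_iff_le_add] at this
    rw [add_comm]
    exact this
  · rw [map_sub]
    have h4 : -algebraMap ℝ B η ≤ x - algebraMap ℝ B c := (neg_le_neg h3).trans h2
    have h5 := add_le_add_left h4 (algebraMap ℝ B c)
    calc algebraMap ℝ B c - algebraMap ℝ B η = -algebraMap ℝ B η + algebraMap ℝ B c := by abel
      _ ≤ (x - algebraMap ℝ B c) + algebraMap ℝ B c := by gcongr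
      _ = x := by abel

theorem alg_nonneg [Nontrivial B] {r : ℝ} (h : 0 ≤ algebraMap ℝ B r) : 0 ≤ r := by
  by_contra hc
  push Not at hc
  have h1 : algebraMap ℝ B r ≤ algebraMap ℝ B 0 := algebraMap_mono B hc.le
  rw [map_zero] at h1
  have h2 : algebraMap ℝ B r = 0 := le_antisymm h1 h
  rw [← map_zero (algebraMap ℝ B)] at h2
  exact hc.ne ((algebraMap ℝ B).injective h2)

/-- The inverse square root. -/
theorem invroot {P : B} {δ : ℝ} (hδ : 0 < δ) (hP : algebraMap ℝ B δ ≤ P) :
    ∃ R : B, IsSelfAdjoint R ∧ R * P * R = 1 ∧ R * R ≤ algebraMap ℝ B δ⁻¹ := by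
  have hP0 : 0 ≤ P := le_trans (by
    have := algebraMap_mono B hδ.le
    rwa [map_zero] at this) hP
  have hPs : IsSelfAdjoint P := IsSelfAdjoint.of_nonneg hP0
  have hsp : ∀ x ∈ spectrum ℝ P, δ ≤ x := (algebraMap_le_iff_le_spectrum).1 hP
  have hc : ContinuousOn (fun x : ℝ => (√x)⁻¹) (spectrum ℝ P) := by
    refine ContinuousOn.inv₀ Real.continuous_sqrt.continuousOn fun x hx => ?_
    exact (Real.sqrt_pos.2 (hδ.trans_le (hsp x hx))).ne'
  refine ⟨cfc (fun x : ℝ => (√x)⁻¹) P, cfc_predicate _ _, ?_, ?_⟩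
  · have h1 : cfc (fun x : ℝ => (√x)⁻¹) P * P * cfc (fun x : ℝ => (√x)⁻¹) P =
        cfc (fun x : ℝ => (√x)⁻¹ * x * (√x)⁻¹) P := by
      rw [cfc_mul (fun x : ℝ => (√x)⁻¹ * x) (fun x : ℝ => (√x)⁻¹) P (hc.mul continuousOn_id) hc,
        cfc_mul (fun x : ℝ => (√x)⁻¹) (fun x : ℝ => x) P hc continuousOn_id, cfc_id' ℝ P]
    rw [h1]
    have h2 : cfc (fun x : ℝ => (√x)⁻¹ * x * (√x)⁻¹) P = cfc (fun _ : ℝ => (1 : ℝ)) P := by
      refine cfc_congr fun x hx => ?_
      have hx0 : 0 < x := hδ.trans_le (hsp x hx)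
      have h3 : √x * √x = x := Real.mul_self_sqrt hx0.le
      have h4 : √x ≠ 0 := (Real.sqrt_pos.2 hx0).ne'
      show (√x)⁻¹ * x * (√x)⁻¹ = 1
      field_simp
      nlinarith [h3]
    rw [h2, cfc_const_one ℝ P]
  · rw [← cfc_mul (fun x : ℝ => (√x)⁻¹) (fun x : ℝ => (√x)⁻¹) P hc hc]
    refine cfc_le_algebraMap _ _ _ (fun x hx => ?_) (hc.mul hc)
    have hx0 : 0 < x := hδ.trans_le (hsp x hx)
    have h3 : √x * √x = x := Real.mul_self_sqrt hx0.le
    rw [← mul_inv, h3]
    exact inv_anti₀ hδ (hsp x hx)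

end F1

open F1

theorem dp_Ftwo : F_two := by
  intro B _ _ _ a α β ha hαβ hα hβ
  rcases subsingleton_or_nontrivial B with hB | hB
  · refine ⟨0, fun i => Fin.elim0 i, 0, le_rfl, one_pos, Subsingleton.elim _ _, ?_⟩
    simp
  -- the positive element
  set b : B := a + algebraMap ℝ B ‖a‖ with hb
  have hb0 : 0 ≤ b := by
    have := ha.neg_algebraMap_norm_le_self
    have h2 := add_le_add_left this (algebraMap ℝ B ‖a‖)
    calc (0 : B) = -algebraMap ℝ B ‖a‖ + algebraMap ℝ B ‖a‖ := by abel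
      _ ≤ a + algebraMap ℝ B ‖a‖ := by gcongr
  set α' : ℝ := α + ‖a‖ with hα'
  set β' : ℝ := β + ‖a‖ with hβ'
  set η : ℝ := (β' - α') / 4 with hη
  have hη0 : 0 < η := by
    rw [hη, hβ', hα']; linarith
  obtain ⟨N, g, hg⟩ := hβ η hη0
  obtain ⟨N', h, hh⟩ := hα η hη0
  rw [av_eq, algC] at hg hh
  have hgP : ‖av g b - algebraMap ℝ B β'‖ ≤ η := by
    have : av g b - algebraMap ℝ B β' = av g a - algebraMap ℝ B β := by
      rw [hb, av_add, av_alg, hβ', map_add]; abel
    rw [this]; exact hg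
  have hhQ : ‖av h b - algebraMap ℝ B α'‖ ≤ η := by
    have : av h b - algebraMap ℝ B α' = av h a - algebraMap ℝ B α := by
      rw [hb, av_add, av_alg, hα', map_add]; abel
    rw [this]; exact hh
  set P := av g b with hPdef
  set Q := av h b with hQdef
  have hP0 : 0 ≤ P := av_nonneg g hb0
  have hQ0 : 0 ≤ Q := av_nonneg h hb0
  obtain ⟨-, hP1⟩ := close (IsSelfAdjoint.of_nonneg hP0) hgP
  obtain ⟨hQ1, -⟩ := close (IsSelfAdjoint.of_nonneg hQ0) hhQ
  have hαη : 0 ≤ α' + η := alg_nonneg (hQ0.trans hQ1)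
  have hδ : 0 < β' - η := by
    have : β' = α' + 4 * η := by rw [hη]; ring
    linarith
  obtain ⟨R, hRs, hRP, hRR⟩ := invroot hδ hP1
  set s := CFC.sqrt b with hs
  have hss : s * s = b := CFC.sqrt_mul_sqrt_self b hb0
  have hsa : star s = s := IsSelfAdjoint.of_nonneg (CFC.sqrt_nonneg b)
  -- the constant
  set n : ℝ := (N : ℝ) + 1 with hn
  set n' : ℝ := (N' : ℝ) + 1 with hn'
  have hn0 : 0 < n := by positivity
  have hn'0 : 0 < n' := by positivity
  set c : ℝ := √((n * n')⁻¹) with hc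
  have hcc : c * c = (n * n')⁻¹ := Real.mul_self_sqrt (by positivity)
  let z : Fin (N + 1) × Fin (N' + 1) → B := fun q => c • ((h q.2 : B) * s * star (g q.1 : B))
  have hz1 : ∀ q, star (z q) * z q = (n * n')⁻¹ • ((g q.1 : B) * b * star (g q.1 : B)) := by
    intro q
    show star (c • ((h q.2 : B) * s * star (g q.1 : B))) *
      (c • ((h q.2 : B) * s * star (g q.1 : B))) = _
    rw [star_smul, star_trivial, smul_mul_smul_comm, hcc]
    congr 1
    rw [star_mul, star_mul, star_star, hsa]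
    calc (g q.1 : B) * (s * star (h q.2 : B)) * ((h q.2 : B) * s * star (g q.1 : B))
        = (g q.1 : B) * s * (star (h q.2 : B) * (h q.2 : B)) * s * star (g q.1 : B) := by
          noncomm_ring
      _ = (g q.1 : B) * (s * s) * star (g q.1 : B) := by
          rw [Unitary.star_mul_self_of_mem (h q.2).2]; noncomm_ring
      _ = _ := by rw [hss]
  have hz2 : ∀ q, z q * star (z q) = (n * n')⁻¹ • ((h q.2 : B) * b * star (h q.2 : B)) := by
    intro q
    show (c • ((h q.2 : B) * s * star (g q.1 : B))) *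
      star (c • ((h q.2 : B) * s * star (g q.1 : B))) = _
    rw [star_smul, star_trivial c, smul_mul_smul_comm, hcc]
    congr 1
    rw [star_mul, star_mul, star_star, hsa]
    calc (h q.2 : B) * s * star (g q.1 : B) * ((g q.1 : B) * (s * star (h q.2 : B)))
        = (h q.2 : B) * s * (star (g q.1 : B) * (g q.1 : B)) * s * star (h q.2 : B) := by
          noncomm_ring
      _ = (h q.2 : B) * (s * s) * star (h q.2 : B) := by
          rw [Unitary.star_mul_self_of_mem (g q.1).2]; noncomm_ring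
      _ = _ := by rw [hss]
  have hS1 : ∑ q, star (z q) * z q = P := by
    rw [Finset.sum_congr rfl fun q _ => hz1 q, Fintype.sum_prod_type]
    simp only [Finset.sum_const, Finset.card_univ, Fintype.card_fin]
    rw [hPdef]
    unfold av
    rw [Finset.smul_sum]
    refine Finset.sum_congr rfl fun i _ => ?_
    rw [← Nat.cast_smul_eq_nsmul ℝ, smul_smul]
    congr 1
    push_cast
    rw [← hn, ← hn']
    field_simp
  have hS2 : ∑ q, z q * star (z q) = Q := by
    rw [Finset.sum_congr rfl fun q _ => hz2 q, Fintype.sum_prod_type]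
    simp only [Finset.sum_const, Finset.card_univ, Fintype.card_fin]
    rw [hQdef]
    unfold av
    rw [← Nat.cast_smul_eq_nsmul ℝ, Finset.smul_sum, Finset.smul_sum]
    refine Finset.sum_congr rfl fun i _ => ?_
    rw [smul_smul]
    congr 1
    push_cast
    rw [← hn, ← hn']
    field_simp
  -- the final family
  have hfin : ∃ (k : ℕ) (e : Fin k ≃ Fin (N + 1) × Fin (N' + 1)), True :=
    ⟨_, (Fintype.equivFin _).symm, trivial⟩
  obtain ⟨k, e, -⟩ := hfin
  refine ⟨k, fun i => z (e i) * R, (α' + η) / (β' - η), by positivity, ?_, ?_, ?_⟩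
  · rw [div_lt_one hδ]
    have : β' = α' + 4 * η := by rw [hη]; ring
    linarith
  · rw [Equiv.sum_comp e (fun q => star (z q * R) * (z q * R))]
    have h1 : ∀ q, star (z q * R) * (z q * R) = R * (star (z q) * z q) * R := by
      intro q
      rw [star_mul, hRs.star_eq]
      noncomm_ring
    rw [Finset.sum_congr rfl fun q _ => h1 q, ← Finset.sum_mul, ← Finset.mul_sum, hS1, hRP]
  · rw [Equiv.sum_comp e (fun q => z q * R * star (z q * R))]
    have h1 : ∀ q, z q * R * star (z q * R) = z q * (R * R) * star (z q) := by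
      intro q
      rw [star_mul, hRs.star_eq]
      noncomm_ring
    have h2 : ∀ q, z q * (R * R) * star (z q) ≤ (β' - η)⁻¹ • (z q * star (z q)) := by
      intro q
      have h3 := star_right_conjugate_le_conjugate hRR (z q)
      refine h3.trans (le_of_eq ?_)
      rw [← Algebra.commutes, mul_assoc, Algebra.algebraMap_eq_smul_one, smul_mul_assoc, one_mul]
    have h4 : ∑ q, z q * (R * R) * star (z q) ≤ algebraMap ℝ B ((α' + η) / (β' - η)) := by
      calc ∑ q, z q * (R * R) * star (z q) ≤ ∑ q, (β' - η)⁻¹ • (z q * star (z q)) :=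
            Finset.sum_le_sum fun q _ => h2 q
        _ = (β' - η)⁻¹ • Q := by rw [← Finset.smul_sum, hS2]
        _ ≤ (β' - η)⁻¹ • algebraMap ℝ B (α' + η) :=
            smul_le_smul_of_nonneg_left hQ1 (by positivity)
        _ = algebraMap ℝ B ((α' + η) / (β' - η)) := by
            rw [Algebra.algebraMap_eq_smul_one, Algebra.algebraMap_eq_smul_one, smul_smul]
            congr 1
            rw [div_eq_inv_mul]
    rw [Finset.sum_congr rfl fun q _ => h1 q]
    have h5 : 0 ≤ ∑ q, z q * (R * R) * star (z q) := by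
      refine Finset.sum_nonneg fun q _ => ?_
      rw [← h1 q]
      exact mul_star_self_nonneg _
    exact (CStarAlgebra.norm_le_iff_le_algebraMap _ (by positivity) h5).2 h4

end H710R2.DP
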