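import Mathlib
import Pool.Agent.H710R2.DP.Defs
import Pool.Agent.H710R2.DP.Defs2
import Pool.Agent.H710R2.DP.Tasks
import Pool.Agent.H710R2.DP.VTasks

open scoped ComplexOrder InnerProductSpace ComplexConjugate
open Finset

noncomputable section

namespace H710R2.DP

open H759R2.Kad

theorem dp_Vfin : V_fin := by
  intro H _ _ _ M p e hp he hpr hab I _ _ v hv ho hpv hy
  obtain ⟨n, ⟨σ⟩⟩ := Finite.exists_equiv_fin I
  have : Fintype I := Fintype.ofEquiv _ σ.symm
  obtain ⟨n, rfl⟩ : ∃ k, n = k + 1 := by
    rcases n with _ | k
    · exact (Fin.elim0 (σ (Classical.arbitrary I)))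
    · exact ⟨k, rfl⟩
  -- `v i * e = v i`
  have hve : ∀ i, v i * e = v i := by
    intro i
    have h0 : star (v i - v i * e) * (v i - v i * e) = 0 := by
      have h1 : star (v i - v i * e) = star (v i) - e * star (v i) := by
        rw [star_sub, star_mul, hpr.1]
      rw [h1]
      have h2 : (star (v i) - e * star (v i)) * (v i - v i * e) =
          star (v i) * v i - (star (v i) * v i) * e - (e * (star (v i) * v i) -
            e * (star (v i) * v i) * e) := by
        noncomm_ring
      rw [h2, (hv i).2, hpr.2, hpr.2]
      simp
    have h3 := (CStarRing.star_mul_self_eq_zero_iff _).1 h0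
    exact (sub_eq_zero.1 h3).symm
  have hev : ∀ i, e * star (v i) = star (v i) := by
    intro i
    have h := congrArg star (hve i)
    rw [star_mul, hpr.1] at h
    exact h
  -- the sum
  have hsum : ∑ i, v i * star (v i) = p := by
    set s := ∑ i, v i * star (v i) with hs
    have h1 : ∀ j, s * v j = v j := by
      intro j
      rw [hs, Finset.sum_mul, Finset.sum_eq_single j]
      · rw [mul_assoc, (hv j).2, hve]
      · intro i _ hij
        rw [mul_assoc, ho i j hij, mul_zero]
      · simp
    have h2 : (p - s) * p = 0 := by
      refine hy (p - s) fun i => ?_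
      rw [sub_mul, hpv, h1, sub_self]
    have h3 : s * p = p := by
      rw [sub_mul, hp.1.2] at h2
      exact (sub_eq_zero.1 h2).symm
    have h4 : star s = s := by
      rw [hs, star_sum]
      refine Finset.sum_congr rfl fun i _ => ?_
      rw [star_mul, star_star]
    have h5 : p * s = s := by
      rw [hs, Finset.mul_sum]
      refine Finset.sum_congr rfl fun i _ => ?_
      rw [← mul_assoc, hpv]
    have h6 := congrArg star h3
    rw [star_mul, h4, hp.1.1, h5] at h6
    exact h6
  refine ⟨n, fun i j => v (σ.symm i) * star (v (σ.symm j)), ⟨?_, ?_, ?_, ?_⟩, ?_⟩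
  · intro i j
    exact mul_mem (hv _).1 (star_mem (hv _).1)
  · intro i j
    rw [star_mul, star_star]
  · intro i j k l
    by_cases hjk : j = k
    · subst hjk
      rw [if_pos rfl]
      calc v (σ.symm i) * star (v (σ.symm j)) * (v (σ.symm j) * star (v (σ.symm l)))
          = v (σ.symm i) * (star (v (σ.symm j)) * v (σ.symm j)) * star (v (σ.symm l)) := by
            noncomm_ring
        _ = v (σ.symm i) * star (v (σ.symm l)) := by rw [(hv _).2, hve]
    · rw [if_neg hjk]
      calc v (σ.symm i) * star (v (σ.symm j)) * (v (σ.symm k) * star (v (σ.symm l)))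
          = v (σ.symm i) * (star (v (σ.symm j)) * v (σ.symm k)) * star (v (σ.symm l)) := by
            noncomm_ring
        _ = 0 := by
            rw [ho _ _ (fun h => hjk (σ.symm.injective h))]
            simp
  · rw [← hsum]
    exact Equiv.sum_comp σ.symm (fun i => v i * star (v i))
  · intro x hx ε hε
    set u := v (σ.symm 0) with hu
    have huM : u ∈ M := (hv _).1
    have huu : star u * u = e := (hv _).2
    have hue : u * e = u := hve _
    have heu : e * star u = star u := hev _
    obtain ⟨z, hz, hzε⟩ := hab (star u * x * u) (mul_mem (mul_mem (star_mem huM) hx) huM) ε hε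
    refine ⟨z, hz, ?_⟩
    have he1 : ‖e‖ ≤ 1 := by
      have h := CStarRing.norm_star_mul_self (x := e)
      rw [hpr.1, hpr.2] at h
      by_contra hc
      push Not at hc
      nlinarith [norm_nonneg e]
    have hu1 : ‖u‖ ≤ 1 := by
      have h := CStarRing.norm_star_mul_self (x := u)
      rw [huu] at h
      by_contra hc
      push Not at hc
      nlinarith [norm_nonneg u]
    have key : u * star u * x * (u * star u) - z * (u * star u) =
        u * (e * (star u * x * u) * e - z * e) * star u := by
      have h1 : e * (star u * x * u) * e = star u * x * u := by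
        calc e * (star u * x * u) * e = (e * star u) * x * (u * e) := by noncomm_ring
          _ = star u * x * u := by rw [heu, hue]
      have h2 : z * u = u * z := hz.2 u huM
      calc u * star u * x * (u * star u) - z * (u * star u)
          = u * (star u * x * u) * star u - (z * u) * star u := by noncomm_ring
        _ = u * (star u * x * u) * star u - u * z * (e * star u) := by rw [h2, heu]
        _ = u * (star u * x * u - z * e) * star u := by noncomm_ring
        _ = _ := by rw [h1]
    show ‖u * star u * x * (u * star u) - z * (u * star u)‖ ≤ ε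
    rw [key]
    calc ‖u * (e * (star u * x * u) * e - z * e) * star u‖
        ≤ ‖u‖ * ‖e * (star u * x * u) * e - z * e‖ * ‖star u‖ :=
          (norm_mul_le _ _).trans (mul_le_mul_of_nonneg_right (norm_mul_le _ _) (norm_nonneg _))
      _ ≤ 1 * ε * 1 := by
          rw [norm_star]
          exact mul_le_mul (mul_le_mul hu1 hzε (norm_nonneg _) zero_le_one) hu1
            (norm_nonneg _) (by positivity)
      _ = ε := by ring

end H710R2.DP
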