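import Mathlib
import Pool.Agent.H710R2.DP.Defs
import Pool.Agent.H710R2.DP.Defs2
import Pool.Agent.H710R2.DP.Tasks

open scoped ComplexOrder InnerProductSpace ComplexConjugate
open Finset

noncomputable section

namespace H710R2.DP

open H759R2.Kad

namespace W1

variable {H : Type} [NormedAddCommGroup H] [InnerProductSpace ℂ H]

theorem normsq {ι : Type} [Fintype ι] (v : HH ι H) : ‖v‖ ^ 2 = ∑ i, ‖v i‖ ^ 2 :=
  PiLp.norm_sq_eq_of_L2 _ v

/-- The diagonal operator. -/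
def dg (T : H →L[ℂ] H) (m : ℕ) : HH (Fin m) H →L[ℂ] HH (Fin m) H :=
  opMat fun i j => if i = j then T else 0

theorem dg_apply (T : H →L[ℂ] H) (m : ℕ) (v : HH (Fin m) H) (i : Fin m) :
    dg T m v i = T (v i) := by
  unfold dg
  rw [opMat_apply, Finset.sum_eq_single i]
  · simp
  · intro j _ hj
    simp [Ne.symm hj]
  · simp

theorem dg_norm (T : H →L[ℂ] H) (m : ℕ) : ‖dg T m‖ ≤ ‖T‖ := by
  refine ContinuousLinearMap.opNorm_le_bound _ (norm_nonneg _) fun v => ?_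
  refine le_of_sq_le_sq ?_ (by positivity)
  rw [mul_pow, normsq, normsq, Finset.mul_sum]
  refine Finset.sum_le_sum fun i _ => ?_
  rw [dg_apply, ← mul_pow]
  exact pow_le_pow_left₀ (norm_nonneg _) (T.le_opNorm _) 2

theorem amp_norm_le [CompleteSpace H] {A : Type} [CStarAlgebra A] [PartialOrder A]
    [StarOrderedRing A] (π : A →⋆ₐ[ℂ] (H →L[ℂ] H)) (m : ℕ) (X : CStarMatrix (Fin m) (Fin m) A) :
    ‖amp π.toLinearMap (Fin m) X‖ ≤ ‖X‖ := by
  rw [← ampHom_apply]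
  exact NonUnitalStarAlgHom.norm_apply_le (ampHom π (Fin m)) X

/-- The `k`-th component of a vector of pairs. -/
def cmp (m : ℕ) (k : Fin 2) (ξ : HH (Fin m) (HH (Fin 2) H)) : HH (Fin m) H :=
  WithLp.toLp 2 fun i => ξ i k

theorem cmp_apply (m : ℕ) (k : Fin 2) (ξ : HH (Fin m) (HH (Fin 2) H)) (i : Fin m) :
    cmp m k ξ i = ξ i k := rfl

theorem cmp_normsq (m : ℕ) (ξ : HH (Fin m) (HH (Fin 2) H)) :
    ‖ξ‖ ^ 2 = ‖cmp m 0 ξ‖ ^ 2 + ‖cmp m 1 ξ‖ ^ 2 := by
  rw [normsq, normsq, normsq, ← Finset.sum_add_distrib]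
  refine Finset.sum_congr rfl fun i _ => ?_
  rw [normsq, Fin.sum_univ_two]
  rfl

/-- The vector of pairs with given components. -/
def par (m : ℕ) (u v : HH (Fin m) H) : HH (Fin m) (HH (Fin 2) H) :=
  WithLp.toLp 2 fun i => WithLp.toLp 2 ![u i, v i]

theorem par_normsq (m : ℕ) (u v : HH (Fin m) H) : ‖par m u v‖ ^ 2 = ‖u‖ ^ 2 + ‖v‖ ^ 2 := by
  rw [cmp_normsq]
  congr 2

end W1

open W1

theorem dp_inner : W_inner := by
  intro H _ _ _ A _ _ _ π D D' T C m hC hD hL X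
  have key : amp D (Fin m) X = amp D' (Fin m) X +
      (dg T m * amp π.toLinearMap (Fin m) X - amp π.toLinearMap (Fin m) X * dg T m) := by
    ext v i
    have h1 : (amp D (Fin m) X v) i = ∑ j, (D (X i j)) (v j) := amp_apply _ _ _ _
    have h2 : (amp D' (Fin m) X v) i = ∑ j, (D' (X i j)) (v j) := amp_apply _ _ _ _
    have h3 : ((dg T m * amp π.toLinearMap (Fin m) X) v) i = ∑ j, T ((π (X i j)) (v j)) := by
      show (dg T m (amp π.toLinearMap (Fin m) X v)) i = _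
      rw [dg_apply, amp_apply, map_sum]
      rfl
    have h4 : ((amp π.toLinearMap (Fin m) X * dg T m) v) i = ∑ j, (π (X i j)) (T (v j)) := by
      show (amp π.toLinearMap (Fin m) X (dg T m v)) i = _
      rw [amp_apply]
      refine Finset.sum_congr rfl fun j _ => ?_
      rw [dg_apply]
      rfl
    show (amp D (Fin m) X v) i = (amp D' (Fin m) X v) i +
      (((dg T m * amp π.toLinearMap (Fin m) X) v) i -
        ((amp π.toLinearMap (Fin m) X * dg T m) v) i)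
    rw [h1, h2, h3, h4, ← Finset.sum_sub_distrib, ← Finset.sum_add_distrib]
    refine Finset.sum_congr rfl fun j _ => ?_
    rw [hD]
    rfl
  have hπ := amp_norm_le π m X
  have hT := dg_norm T m
  rw [key]
  calc ‖amp D' (Fin m) X + (dg T m * amp π.toLinearMap (Fin m) X -
        amp π.toLinearMap (Fin m) X * dg T m)‖
      ≤ ‖amp D' (Fin m) X‖ + (‖dg T m * amp π.toLinearMap (Fin m) X‖ +
        ‖amp π.toLinearMap (Fin m) X * dg T m‖) :=
        (norm_add_le _ _).trans (add_le_add le_rfl (norm_sub_le _ _))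
    _ ≤ C * ‖X‖ + (‖T‖ * ‖X‖ + ‖X‖ * ‖T‖) := by
        refine add_le_add (hL X) (add_le_add ?_ ?_)
        · exact (norm_mul_le _ _).trans (mul_le_mul hT hπ (norm_nonneg _) (norm_nonneg _))
        · exact (norm_mul_le _ _).trans (mul_le_mul hπ hT (norm_nonneg _) (norm_nonneg _))
    _ = (C + 2 * ‖T‖) * ‖X‖ := by ring

theorem dp_uD : W_uD := by
  intro H _ _ _ A _ _ _ π D C m hC hL X
  have hπ := amp_norm_le π m X
  refine ContinuousLinearMap.opNorm_le_bound _ (by positivity) fun ξ => ?_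
  have key : amp (uD π D) (Fin m) X ξ =
      par m (amp π.toLinearMap (Fin m) X (cmp m 0 ξ)) (amp π.toLinearMap (Fin m) X (cmp m 1 ξ)) +
      par m (amp D (Fin m) X (cmp m 1 ξ)) 0 := by
    ext i k
    have h1 : (amp (uD π D) (Fin m) X ξ) i = ∑ j, (uD π D (X i j)) (ξ j) := amp_apply _ _ _ _
    show ((amp (uD π D) (Fin m) X ξ) i) k = _
    rw [h1]
    have h2 : (∑ j, (uD π D (X i j)) (ξ j)) k = ∑ j, ((uD π D (X i j)) (ξ j)) k :=
      map_sum (PiLp.proj (𝕜 := ℂ) 2 (fun _ : Fin 2 => H) k) _ _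
    rw [h2]
    have h3 : ∀ j, ((uD π D (X i j)) (ξ j)) k =
        ∑ l : Fin 2, (if k = l then π (X i j) else if k = 0 then D (X i j) else 0) (ξ j l) := by
      intro j
      show (opMat (fun i' j' => if i' = j' then π (X i j) else if i' = 0 then D (X i j) else 0)
        (ξ j)) k = _
      rw [opMat_apply]
    simp only [h3, Fin.sum_univ_two]
    fin_cases k
    · show _ = (amp π.toLinearMap (Fin m) X (cmp m 0 ξ)) i + (amp D (Fin m) X (cmp m 1 ξ)) i
      rw [amp_apply, amp_apply, ← Finset.sum_add_distrib]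
      refine Finset.sum_congr rfl fun j _ => ?_
      simp [cmp_apply]
    · show _ = (amp π.toLinearMap (Fin m) X (cmp m 1 ξ)) i + (0 : H)
      rw [amp_apply, add_zero]
      refine Finset.sum_congr rfl fun j _ => ?_
      simp [cmp_apply]
  rw [key]
  have e0 := cmp_normsq m ξ
  have b1 : ‖par m (amp π.toLinearMap (Fin m) X (cmp m 0 ξ))
      (amp π.toLinearMap (Fin m) X (cmp m 1 ξ))‖ ≤ ‖X‖ * ‖ξ‖ := by
    refine le_of_sq_le_sq ?_ (by positivity)
    rw [par_normsq, mul_pow, e0, mul_add]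
    refine add_le_add ?_ ?_
    · rw [← mul_pow]
      refine pow_le_pow_left₀ (norm_nonneg _) ?_ 2
      exact (ContinuousLinearMap.le_opNorm _ _).trans
        (mul_le_mul_of_nonneg_right hπ (norm_nonneg _))
    · rw [← mul_pow]
      refine pow_le_pow_left₀ (norm_nonneg _) ?_ 2
      exact (ContinuousLinearMap.le_opNorm _ _).trans
        (mul_le_mul_of_nonneg_right hπ (norm_nonneg _))
  have b2 : ‖par m (amp D (Fin m) X (cmp m 1 ξ)) 0‖ ≤ C * ‖X‖ * ‖ξ‖ := by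
    refine le_of_sq_le_sq ?_ (by positivity)
    rw [par_normsq, norm_zero, mul_pow, e0]
    have h5 : ‖amp D (Fin m) X (cmp m 1 ξ)‖ ^ 2 ≤ (C * ‖X‖) ^ 2 * ‖cmp m 1 ξ‖ ^ 2 := by
      rw [← mul_pow]
      refine pow_le_pow_left₀ (norm_nonneg _) ?_ 2
      exact (ContinuousLinearMap.le_opNorm _ _).trans
        (mul_le_mul_of_nonneg_right (hL X) (norm_nonneg _))
    have h6 : 0 ≤ (C * ‖X‖) ^ 2 * ‖cmp m 0 ξ‖ ^ 2 := by positivity
    nlinarith [h5, h6]
  calc ‖par m (amp π.toLinearMap (Fin m) X (cmp m 0 ξ))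
        (amp π.toLinearMap (Fin m) X (cmp m 1 ξ)) + par m (amp D (Fin m) X (cmp m 1 ξ)) 0‖
      ≤ ‖X‖ * ‖ξ‖ + C * ‖X‖ * ‖ξ‖ := (norm_add_le _ _).trans (add_le_add b1 b2)
    _ = (1 + C) * ‖X‖ * ‖ξ‖ := by ring

theorem dp_res : W_res := by
  intro H _ _ _ A _ _ _ B _ _ _ φ D E C m hC hD hL Y
  have hn : ‖CStarMatrix.mapₙₐ (n := Fin m) (φ : A →⋆ₙₐ[ℂ] B) Y‖ ≤ ‖Y‖ :=
    NonUnitalStarAlgHom.norm_apply_le _ _
  have he : amp E (Fin m) (CStarMatrix.mapₙₐ (n := Fin m) (φ : A →⋆ₙₐ[ℂ] B) Y) =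
      amp D (Fin m) Y := by
    ext ξ i
    show (amp E (Fin m) (CStarMatrix.mapₙₐ (n := Fin m) (φ : A →⋆ₙₐ[ℂ] B) Y) ξ) i =
      (amp D (Fin m) Y ξ) i
    rw [amp_apply, amp_apply]
    refine Finset.sum_congr rfl fun j _ => ?_
    rw [hD]
    rfl
  rw [← he]
  exact (hL _).trans (mul_le_mul_of_nonneg_left hn hC)

end H710R2.DP
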